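import Pool.Agent.W397.EO.Stm

set_option autoImplicit false

namespace Pool.Agent.W397.EO

open Finset

/-- logarithm of the bound for a vertex of degree `2 h` -/
noncomputable def lb (h : ℕ) : ℝ :=
  ∑ a ∈ Finset.range (h + 1), ∑ b ∈ Finset.range (h + 1),
    ((h.choose a : ℝ) * (h.choose b : ℝ) / ((2 * (h : ℝ) + 1) * ((2 * h).choose (a + b) : ℝ))) *
      Real.log ((2 * h - (a + b)).choose (h - a) : ℝ)

section

variable {V : Type} [Fintype V] [DecidableEq V]

/-- number of out-edges to earlier vertices -/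
def pa (σ : V ≃ Fin (Fintype.card V)) (v : V) (o : V → V → Bool) : ℕ :=
  (Finset.univ.filter (fun w => o v w = true ∧ σ w < σ v)).card

/-- number of in-edges from earlier vertices -/
def pb (σ : V ≃ Fin (Fintype.card V)) (v : V) (o : V → V → Bool) : ℕ :=
  (Finset.univ.filter (fun w => o w v = true ∧ σ w < σ v)).card

/-- the class bound -/
noncomputable def MM (h : V → ℕ) (σ : V ≃ Fin (Fintype.card V)) (v : V) (o : V → V → Bool) : ℝ :=
  ((2 * h v - (pa σ v o + pb σ v o)).choose (h v - pa σ v o) : ℝ)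

theorem rr_eq {σ : V ≃ Fin (Fintype.card V)} {i : ℕ} {o o' : V → V → Bool}
    (h : rr σ i o = rr σ i o') (u w : V) (huw : (σ u : ℕ) < i ∨ (σ w : ℕ) < i) :
    o u w = o' u w := by
  have := congrFun (congrFun h u) w
  unfold rr at this
  rwa [if_pos huw, if_pos huw] at this

theorem step (hE : S_ENT) (hC : S_CLS) (G : SimpleGraph V) [DecidableRel G.Adj] (h : V → ℕ)
    (hd : ∀ v, G.degree v = 2 * h v) (σ : V ≃ Fin (Fintype.card V)) :
    ((eo V G).card : ℝ) * Real.log (eo V G).card ≤
      ∑ v : V, ∑ o ∈ eo V G, Real.log (MM h σ v o) := by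
  classical
  have key := hE (V → V → Bool) (V → V → Bool) (eo V G) (Fintype.card V) (fun i => rr σ i)
    (fun i o => if hi : i < Fintype.card V then MM h σ (σ.symm ⟨i, hi⟩) o else 1)
    (by
      intro x _ x' _
      funext u w
      simp [rr])
    (by
      intro x _ x' _ hx
      funext u w
      exact rr_eq hx u w (Or.inl (σ u).2))
    (by
      intro i _ x _ x' _ hx
      funext u w
      show (if (σ u : ℕ) < i ∨ (σ w : ℕ) < i then x u w else false) =
        (if (σ u : ℕ) < i ∨ (σ w : ℕ) < i then x' u w else false)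
      by_cases huw : (σ u : ℕ) < i ∨ (σ w : ℕ) < i
      · rw [if_pos huw, if_pos huw]
        exact rr_eq hx u w (by omega)
      · rw [if_neg huw, if_neg huw])
    (by
      intro i hi x _ x' _ hx
      simp only [dif_pos hi]
      have h1 : ∀ w, σ w < σ (σ.symm ⟨i, hi⟩) → (σ w : ℕ) < i := by
        intro w hw
        rw [Equiv.apply_symm_apply] at hw
        exact hw
      have ha : pa σ (σ.symm ⟨i, hi⟩) x = pa σ (σ.symm ⟨i, hi⟩) x' := by
        unfold pa
        congr 1
        ext w
        simp only [mem_filter, mem_univ, true_and]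
        constructor
        · rintro ⟨h2, h3⟩
          exact ⟨by rw [← rr_eq hx _ w (Or.inr (h1 w h3))]; exact h2, h3⟩
        · rintro ⟨h2, h3⟩
          exact ⟨by rw [rr_eq hx _ w (Or.inr (h1 w h3))]; exact h2, h3⟩
      have hb : pb σ (σ.symm ⟨i, hi⟩) x = pb σ (σ.symm ⟨i, hi⟩) x' := by
        unfold pb
        congr 1
        ext w
        simp only [mem_filter, mem_univ, true_and]
        constructor
        · rintro ⟨h2, h3⟩
          exact ⟨by rw [← rr_eq hx w _ (Or.inl (h1 w h3))]; exact h2, h3⟩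
        · rintro ⟨h2, h3⟩
          exact ⟨by rw [rr_eq hx w _ (Or.inl (h1 w h3))]; exact h2, h3⟩
      unfold MM
      rw [ha, hb])
    (by
      intro i hi x hx
      simp only [dif_pos hi]
      have h1 := hC V G σ (σ.symm ⟨i, hi⟩) (h _) (hd _) x hx
      have h2 : (σ (σ.symm ⟨i, hi⟩) : ℕ) = i := by rw [Equiv.apply_symm_apply]
      rw [h2] at h1
      exact h1)
  refine key.trans (le_of_eq ?_)
  rw [← Fin.sum_univ_eq_sum_range (fun i => ∑ x ∈ eo V G, Real.log
    (if hi : i < Fintype.card V then MM h σ (σ.symm ⟨i, hi⟩) x else 1)) (Fintype.card V)]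
  rw [← Equiv.sum_comp σ]
  refine Finset.sum_congr rfl fun v _ => Finset.sum_congr rfl fun o _ => ?_
  rw [dif_pos (σ v).2]
  simp

/-- average over the orders -/
theorem avg (hO : S_ORD) (hS : S_SUB) (G : SimpleGraph V) [DecidableRel G.Adj] (h : V → ℕ)
    (hd : ∀ v, G.degree v = 2 * h v) (v : V) (o : V → V → Bool) (ho : o ∈ eo V G) :
    ∑ σ : V ≃ Fin (Fintype.card V), Real.log (MM h σ v o) =
      ((Fintype.card V).factorial : ℝ) * lb (h v) := by
  classical
  unfold eo at ho
  rw [mem_filter] at ho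
  obtain ⟨-, h1, h2, h3⟩ := ho
  set P : Finset V := Finset.univ.filter (fun w => o v w = true) with hP
  set Q : Finset V := Finset.univ.filter (fun w => o w v = true) with hQ
  have hPQ : Disjoint P Q := by
    rw [Finset.disjoint_left]
    intro w hw hw'
    rw [hP, mem_filter] at hw
    rw [hQ, mem_filter] at hw'
    have h4 := (h2 v w (h1 _ _ hw.2)).1 hw.2
    rw [hw'.2] at h4
    cases h4
  have hU : P ∪ Q = G.neighborFinset v := by
    ext w
    rw [mem_union, hP, hQ, mem_filter, mem_filter, SimpleGraph.mem_neighborFinset]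
    constructor
    · rintro (hw | hw)
      · exact h1 _ _ hw.2
      · exact (h1 _ _ hw.2).symm
    · intro hw
      by_cases h4 : o v w = true
      · exact Or.inl ⟨mem_univ _, h4⟩
      · refine Or.inr ⟨mem_univ _, ?_⟩
        by_contra h5
        exact h4 ((h2 v w hw).2 (by simpa using h5))
  have hcard : P.card = Q.card := h3 v
  have hsum : P.card + Q.card = 2 * h v := by
    rw [← card_union_of_disjoint hPQ, hU, SimpleGraph.card_neighborFinset_eq_degree, hd]
  have hPc : P.card = h v := by omega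
  have hQc : Q.card = h v := by omega
  have hvN : v ∉ P ∪ Q := by
    rw [hU, SimpleGraph.mem_neighborFinset]
    exact G.loopless.irrefl v
  -- the function of the set of earlier neighbours
  let g : ℕ → ℕ → ℝ := fun a b => Real.log ((2 * h v - (a + b)).choose (h v - a) : ℝ)
  have hM : ∀ σ : V ≃ Fin (Fintype.card V), Real.log (MM h σ v o) =
      g (((P ∪ Q).filter (fun u => σ u < σ v)) ∩ P).card
        (((P ∪ Q).filter (fun u => σ u < σ v)) ∩ Q).card := by
    intro σ
    have ha : pa σ v o = (((P ∪ Q).filter (fun u => σ u < σ v)) ∩ P).card := by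
      unfold pa
      congr 1
      ext w
      simp only [mem_filter, mem_univ, true_and, mem_inter, mem_union, hP, hQ]
      tauto
    have hb : pb σ v o = (((P ∪ Q).filter (fun u => σ u < σ v)) ∩ Q).card := by
      unfold pb
      congr 1
      ext w
      simp only [mem_filter, mem_univ, true_and, mem_inter, mem_union, hP, hQ]
      tauto
    unfold MM
    rw [ha, hb]
  rw [Finset.sum_congr rfl fun σ _ => hM σ]
  have hfib := Finset.sum_fiberwise_of_maps_to (s := (Finset.univ : Finset (V ≃ Fin (Fintype.card V))))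
    (t := (P ∪ Q).powerset) (g := fun σ => (P ∪ Q).filter (fun u => σ u < σ v))
    (fun σ _ => mem_powerset.2 (filter_subset _ _))
    (fun σ => g (((P ∪ Q).filter (fun u => σ u < σ v)) ∩ P).card
        (((P ∪ Q).filter (fun u => σ u < σ v)) ∩ Q).card)
  rw [← hfib]
  have hNc : (P ∪ Q).card = 2 * h v := by rw [card_union_of_disjoint hPQ, hsum]
  have hterm : ∀ S ∈ (P ∪ Q).powerset,
      ∑ σ ∈ (Finset.univ : Finset (V ≃ Fin (Fintype.card V))).filter
        (fun σ => (P ∪ Q).filter (fun u => σ u < σ v) = S),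
        g (((P ∪ Q).filter (fun u => σ u < σ v)) ∩ P).card
          (((P ∪ Q).filter (fun u => σ u < σ v)) ∩ Q).card =
      (fun a b : ℕ => ((Fintype.card V).factorial : ℝ) /
        ((2 * (h v : ℝ) + 1) * ((2 * h v).choose (a + b) : ℝ)) * g a b)
        (S ∩ P).card (S ∩ Q).card := by
    intro S hS'
    have hSsub := mem_powerset.1 hS'
    have e1 : ∀ σ ∈ (Finset.univ : Finset (V ≃ Fin (Fintype.card V))).filter
        (fun σ => (P ∪ Q).filter (fun u => σ u < σ v) = S),
        g (((P ∪ Q).filter (fun u => σ u < σ v)) ∩ P).card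
          (((P ∪ Q).filter (fun u => σ u < σ v)) ∩ Q).card =
        g (S ∩ P).card (S ∩ Q).card := by
      intro σ hσ
      rw [(mem_filter.1 hσ).2]
    rw [Finset.sum_congr rfl e1, Finset.sum_const, nsmul_eq_mul]
    have e2 := hO V v (P ∪ Q) S hvN hSsub
    have e3 : S.card = (S ∩ P).card + (S ∩ Q).card := by
      rw [← card_union_of_disjoint (disjoint_of_subset_left inter_subset_right
        (disjoint_of_subset_right inter_subset_right hPQ)), ← inter_union_distrib_left,
        inter_eq_left.2 hSsub]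
    rw [hNc, e3] at e2
    have e4 : (0 : ℝ) < (2 * (h v : ℝ) + 1) *
        ((2 * h v).choose ((S ∩ P).card + (S ∩ Q).card) : ℝ) := by
      have : 0 < (2 * h v).choose ((S ∩ P).card + (S ∩ Q).card) := by
        refine Nat.choose_pos ?_
        rw [← e3, ← hNc]
        exact card_le_card hSsub
      positivity
    show _ = ((Fintype.card V).factorial : ℝ) / ((2 * (h v : ℝ) + 1) *
      ((2 * h v).choose ((S ∩ P).card + (S ∩ Q).card) : ℝ)) * g (S ∩ P).card (S ∩ Q).card
    congr 1
    rw [eq_div_iff e4.ne', ← e2]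
    push_cast
    ring
  rw [Finset.sum_congr rfl hterm]
  refine (hS V P Q (fun a b : ℕ => ((Fintype.card V).factorial : ℝ) /
        ((2 * (h v : ℝ) + 1) * ((2 * h v).choose (a + b) : ℝ)) * g a b) hPQ).trans ?_
  rw [hPc, hQc]
  unfold lb
  rw [Finset.mul_sum]
  refine Finset.sum_congr rfl fun a _ => ?_
  rw [Finset.mul_sum]
  refine Finset.sum_congr rfl fun b _ => ?_
  show _ * _ * (_ / _ * Real.log _) = _
  ring

theorem bound (hO : S_ORD) (hE : S_ENT) (hS : S_SUB) (hC : S_CLS) (G : SimpleGraph V)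
    [DecidableRel G.Adj] (h : V → ℕ) (hd : ∀ v, G.degree v = 2 * h v) :
    ((eo V G).card : ℝ) ≤ ∏ v : V, Real.exp (lb (h v)) := by
  classical
  rcases Nat.eq_zero_or_pos (eo V G).card with h0 | h0
  · rw [h0]
    simp only [Nat.cast_zero]
    exact Finset.prod_nonneg fun v _ => (Real.exp_pos _).le
  have hN : (0 : ℝ) < (eo V G).card := by exact_mod_cast h0
  have hf : (0 : ℝ) < ((Fintype.card V).factorial : ℝ) := by
    exact_mod_cast Nat.factorial_pos _
  have h1 : ∑ σ : V ≃ Fin (Fintype.card V), ((eo V G).card : ℝ) * Real.log (eo V G).card ≤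
      ∑ σ : V ≃ Fin (Fintype.card V), ∑ v : V, ∑ o ∈ eo V G, Real.log (MM h σ v o) :=
    Finset.sum_le_sum fun σ _ => step hE hC G h hd σ
  have h2 : ∑ σ : V ≃ Fin (Fintype.card V), ∑ v : V, ∑ o ∈ eo V G, Real.log (MM h σ v o) =
      ((Fintype.card V).factorial : ℝ) * (((eo V G).card : ℝ) * ∑ v : V, lb (h v)) := by
    rw [Finset.sum_comm]
    rw [Finset.mul_sum, Finset.mul_sum]
    refine Finset.sum_congr rfl fun v _ => ?_
    rw [Finset.sum_comm, Finset.sum_congr rfl fun o ho => avg hO hS G h hd v o ho,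
      Finset.sum_const, nsmul_eq_mul]
    ring
  rw [h2, Finset.sum_const, nsmul_eq_mul, Finset.card_univ,
    Fintype.card_equiv (Fintype.equivFin V)] at h1
  have h3 : Real.log (eo V G).card ≤ ∑ v : V, lb (h v) := by
    have := le_of_mul_le_mul_left h1 hf
    exact le_of_mul_le_mul_left this hN
  calc ((eo V G).card : ℝ) = Real.exp (Real.log (eo V G).card) := (Real.exp_log hN).symm
    _ ≤ Real.exp (∑ v : V, lb (h v)) := Real.exp_le_exp.2 h3
    _ = ∏ v : V, Real.exp (lb (h v)) := Real.exp_sum _ _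

end

end Pool.Agent.W397.EO
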