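import Pool.Agent.W397.EO.Asm

set_option autoImplicit false

namespace Pool.Agent.W397.EO

open Finset

theorem exp_lb (h : ℕ) : Real.exp (lb h) =
    ∏ a ∈ Finset.range (h + 1), ∏ b ∈ Finset.range (h + 1),
      ((2 * h - (a + b)).choose (h - a) : ℝ) ^
        ((h.choose a : ℝ) * (h.choose b : ℝ) /
          ((2 * (h : ℝ) + 1) * ((2 * h).choose (a + b) : ℝ))) := by
  unfold lb
  rw [Real.exp_sum]
  refine Finset.prod_congr rfl fun a ha => ?_
  rw [Real.exp_sum]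
  refine Finset.prod_congr rfl fun b hb => ?_
  have ha' : a ≤ h := Nat.lt_succ_iff.1 (mem_range.1 ha)
  have hb' : b ≤ h := Nat.lt_succ_iff.1 (mem_range.1 hb)
  have hpos : (0 : ℝ) < ((2 * h - (a + b)).choose (h - a) : ℝ) := by
    exact_mod_cast Nat.choose_pos (by omega)
  rw [Real.rpow_def_of_pos hpos, mul_comm]

theorem lb_le (h : ℕ) : lb h ≤ (1 / (2 * (h : ℝ) + 1)) *
    ∑ m ∈ Finset.range (2 * h + 1), Real.log (m.choose (m / 2) : ℝ) := by
  classical
  let L : ℕ → ℝ := fun m => Real.log (m.choose (m / 2) : ℝ)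
  have h1 : lb h ≤ ∑ a ∈ Finset.range (h + 1), ∑ b ∈ Finset.range (h + 1),
      ((h.choose a : ℝ) * (h.choose b : ℝ) /
        ((2 * (h : ℝ) + 1) * ((2 * h).choose (a + b) : ℝ))) * L (2 * h - (a + b)) := by
    unfold lb
    refine Finset.sum_le_sum fun a ha => Finset.sum_le_sum fun b hb => ?_
    have ha' : a ≤ h := Nat.lt_succ_iff.1 (mem_range.1 ha)
    have hb' : b ≤ h := Nat.lt_succ_iff.1 (mem_range.1 hb)
    refine mul_le_mul_of_nonneg_left ?_ (by positivity)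
    have hpos : (0 : ℝ) < ((2 * h - (a + b)).choose (h - a) : ℝ) := by
      exact_mod_cast Nat.choose_pos (by omega)
    refine Real.log_le_log hpos ?_
    exact_mod_cast Nat.choose_le_middle (h - a) (2 * h - (a + b))
  refine h1.trans (le_of_eq ?_)
  -- regroup by `k = a + b`
  have h2 : ∀ k, k ≤ 2 * h → ∑ p ∈ (Finset.range (h + 1) ×ˢ Finset.range (h + 1)).filter
      (fun p => p.1 + p.2 = k), (h.choose p.1 : ℝ) * (h.choose p.2 : ℝ) =
      ((2 * h).choose k : ℝ) := by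
    intro k hk
    have h3 : ((2 * h).choose k : ℝ) = ∑ ij ∈ Finset.HasAntidiagonal.antidiagonal k,
        (h.choose ij.1 : ℝ) * (h.choose ij.2 : ℝ) := by
      rw [two_mul, Nat.add_choose_eq]
      push_cast
      rfl
    rw [h3]
    refine Finset.sum_subset_zero_on_sdiff ?_ ?_ fun _ _ => rfl
    · intro p hp
      rw [mem_filter] at hp
      exact Finset.HasAntidiagonal.mem_antidiagonal.2 hp.2
    · intro p hp
      rw [mem_sdiff, Finset.HasAntidiagonal.mem_antidiagonal, mem_filter, mem_product, mem_range, mem_range] at hp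
      have h4 : h < p.1 ∨ h < p.2 := by
        by_contra h5
        exact hp.2 ⟨⟨by omega, by omega⟩, hp.1⟩
      rcases h4 with h4 | h4
      · rw [Nat.choose_eq_zero_of_lt h4]; simp
      · rw [Nat.choose_eq_zero_of_lt h4]; simp
  rw [← Finset.sum_product']
  have hmap : ∀ p ∈ (Finset.range (h + 1) ×ˢ Finset.range (h + 1)),
      p.1 + p.2 ∈ Finset.range (2 * h + 1) := by
    intro p hp
    rw [mem_product, mem_range, mem_range] at hp
    rw [mem_range]
    omega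
  rw [← Finset.sum_fiberwise_of_maps_to hmap]
  have h5 : ∀ k ∈ Finset.range (2 * h + 1),
      ∑ p ∈ (Finset.range (h + 1) ×ˢ Finset.range (h + 1)).filter (fun p => p.1 + p.2 = k),
        ((h.choose p.1 : ℝ) * (h.choose p.2 : ℝ) /
        ((2 * (h : ℝ) + 1) * ((2 * h).choose (p.1 + p.2) : ℝ))) * L (2 * h - (p.1 + p.2)) =
      (1 / (2 * (h : ℝ) + 1)) * L (2 * h - k) := by
    intro k hk
    have hk' : k ≤ 2 * h := Nat.lt_succ_iff.1 (mem_range.1 hk)
    have e1 : ∀ p ∈ (Finset.range (h + 1) ×ˢ Finset.range (h + 1)).filter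
        (fun p => p.1 + p.2 = k),
        ((h.choose p.1 : ℝ) * (h.choose p.2 : ℝ) /
        ((2 * (h : ℝ) + 1) * ((2 * h).choose (p.1 + p.2) : ℝ))) * L (2 * h - (p.1 + p.2)) =
        ((h.choose p.1 : ℝ) * (h.choose p.2 : ℝ)) *
          (1 / ((2 * (h : ℝ) + 1) * ((2 * h).choose k : ℝ)) * L (2 * h - k)) := by
      intro p hp
      rw [(mem_filter.1 hp).2]
      ring
    rw [Finset.sum_congr rfl e1, ← Finset.sum_mul, h2 k hk']
    have e2 : ((2 * h).choose k : ℝ) ≠ 0 := by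
      exact_mod_cast (Nat.choose_pos hk').ne'
    have e3 : (2 * (h : ℝ) + 1) ≠ 0 := by positivity
    field_simp
  rw [Finset.sum_congr rfl h5, ← Finset.mul_sum]
  congr 1
  rw [← Finset.sum_range_reflect]
  refine Finset.sum_congr rfl fun m hm => ?_
  have := mem_range.1 hm
  show Real.log _ = Real.log _
  congr 3 <;> omega

theorem cb_sq (j : ℕ) : (Nat.centralBinom j) ^ 2 * (3 * j + 1) ≤ 16 ^ j := by
  induction j with
  | zero => simp
  | succ j ih =>
    have h1 : (j + 1) * Nat.centralBinom (j + 1) = 2 * (2 * j + 1) * Nat.centralBinom j :=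
      Nat.succ_mul_centralBinom_succ j
    have h2 : (j + 1) ^ 2 * ((Nat.centralBinom (j + 1)) ^ 2 * (3 * (j + 1) + 1)) ≤
        (j + 1) ^ 2 * 16 ^ (j + 1) := by
      calc (j + 1) ^ 2 * ((Nat.centralBinom (j + 1)) ^ 2 * (3 * (j + 1) + 1))
          = ((j + 1) * Nat.centralBinom (j + 1)) ^ 2 * (3 * j + 4) := by ring
        _ = (4 * (2 * j + 1) ^ 2 * (3 * j + 4)) * (Nat.centralBinom j) ^ 2 := by rw [h1]; ring
        _ ≤ (16 * (j + 1) ^ 2 * (3 * j + 1)) * (Nat.centralBinom j) ^ 2 := by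
            refine Nat.mul_le_mul_right _ ?_
            nlinarith
        _ = 16 * (j + 1) ^ 2 * ((Nat.centralBinom j) ^ 2 * (3 * j + 1)) := by ring
        _ ≤ 16 * (j + 1) ^ 2 * 16 ^ j := Nat.mul_le_mul_left _ ih
        _ = (j + 1) ^ 2 * 16 ^ (j + 1) := by ring
    exact Nat.le_of_mul_le_mul_left h2 (by positivity)

theorem mid_sq (m : ℕ) : (m.choose (m / 2)) ^ 2 * (3 * m + 2) ≤ 2 * 4 ^ m := by
  rcases Nat.even_or_odd' m with ⟨j, rfl | rfl⟩
  · have h1 : (2 * j).choose (2 * j / 2) = Nat.centralBinom j := by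
      rw [Nat.centralBinom_eq_two_mul_choose]
      congr 1
      omega
    rw [h1]
    have h2 := cb_sq j
    have h3 : (4 : ℕ) ^ (2 * j) = 16 ^ j := by rw [pow_mul]; norm_num
    rw [h3]
    nlinarith
  · have h1 : 2 * (2 * j + 1).choose ((2 * j + 1) / 2) = Nat.centralBinom (j + 1) := by
      rw [Nat.centralBinom_eq_two_mul_choose]
      have e1 : (2 * j + 1) / 2 = j := by omega
      rw [e1, show 2 * (j + 1) = (2 * j + 1) + 1 by ring, Nat.choose_succ_succ]
      have e2 : (2 * j + 1).choose (j + 1) = (2 * j + 1).choose j := by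
        have := Nat.choose_symm_half j
        exact this
      rw [e2]
      ring
    have h2 := cb_sq (j + 1)
    rw [← h1] at h2
    have h3 : (4 : ℕ) ^ (2 * j + 1) = 4 * 16 ^ j := by rw [pow_succ, pow_mul]; norm_num; ring
    rw [h3]
    have h4 : (16 : ℕ) ^ (j + 1) = 16 * 16 ^ j := by ring
    rw [h4] at h2
    nlinarith

theorem prod_mid (d : ℕ) : (∏ m ∈ Finset.range (d + 1), (m.choose (m / 2) : ℝ)) ^ 2 *
    (d.factorial : ℝ) ≤ (2 / 3) ^ d * 2 ^ (d * (d + 1)) := by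
  induction d with
  | zero => simp
  | succ d ih =>
    rw [Finset.prod_range_succ, Nat.factorial_succ]
    have h1 := mid_sq (d + 1)
    have h2 : (((d + 1).choose ((d + 1) / 2) : ℕ) : ℝ) ^ 2 * ((d : ℝ) + 1) ≤
        (2 / 3) * 4 ^ (d + 1) := by
      have h3 : (((d + 1).choose ((d + 1) / 2) : ℕ) : ℝ) ^ 2 * (3 * ((d : ℝ) + 1) + 2) ≤
          2 * 4 ^ (d + 1) := by exact_mod_cast h1
      have h4 : 0 ≤ (((d + 1).choose ((d + 1) / 2) : ℕ) : ℝ) ^ 2 := by positivity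
      nlinarith
    have h5 : (0 : ℝ) ≤ (∏ m ∈ Finset.range (d + 1), (m.choose (m / 2) : ℝ)) ^ 2 *
        (d.factorial : ℝ) := by positivity
    have h6 : (0 : ℝ) ≤ (2 / 3) * 4 ^ (d + 1) := by positivity
    calc ((∏ m ∈ Finset.range (d + 1), (m.choose (m / 2) : ℝ)) *
          (((d + 1).choose ((d + 1) / 2) : ℕ) : ℝ)) ^ 2 * (((d + 1) * d.factorial : ℕ) : ℝ)
        = ((∏ m ∈ Finset.range (d + 1), (m.choose (m / 2) : ℝ)) ^ 2 * (d.factorial : ℝ)) *
          ((((d + 1).choose ((d + 1) / 2) : ℕ) : ℝ) ^ 2 * ((d : ℝ) + 1)) := by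
          push_cast; ring
      _ ≤ ((2 / 3) ^ d * 2 ^ (d * (d + 1))) * ((2 / 3) * 4 ^ (d + 1)) :=
          mul_le_mul ih h2 (by positivity) (by positivity)
      _ = (2 / 3) ^ (d + 1) * 2 ^ ((d + 1) * (d + 1 + 1)) := by
          have : (4 : ℝ) ^ (d + 1) = 2 ^ (2 * (d + 1)) := by rw [pow_mul]; norm_num
          rw [this, pow_succ (2 / 3 : ℝ) d]
          rw [show (d + 1) * (d + 1 + 1) = d * (d + 1) + 2 * (d + 1) by ring, pow_add]
          ring

/-- the second form -/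
theorem exp_lb_le (h : ℕ) : Real.exp (lb h) ≤
    (∏ m ∈ Finset.range (2 * h + 1), (m.choose (m / 2) : ℝ)) ^ ((1 : ℝ) / (2 * (h : ℝ) + 1)) := by
  have hpos : ∀ m ∈ Finset.range (2 * h + 1), (m.choose (m / 2) : ℝ) ≠ 0 := by
    intro m _
    exact_mod_cast (Nat.choose_pos (Nat.div_le_self m 2)).ne'
  have hP : (0 : ℝ) < ∏ m ∈ Finset.range (2 * h + 1), (m.choose (m / 2) : ℝ) :=
    Finset.prod_pos fun m _ => by exact_mod_cast Nat.choose_pos (Nat.div_le_self m 2)
  rw [Real.rpow_def_of_pos hP, Real.log_prod hpos, mul_comm]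
  exact Real.exp_le_exp.2 (lb_le h)

/-- the third form -/
theorem third (h : ℕ) :
    (∏ m ∈ Finset.range (2 * h + 1), (m.choose (m / 2) : ℝ)) ^ ((1 : ℝ) / (2 * (h : ℝ) + 1)) ≤
      2 ^ h * ((2 / 3) ^ (2 * h) / ((2 * h).factorial : ℝ)) ^
        ((1 : ℝ) / (2 * (2 * (h : ℝ) + 1))) := by
  have hP : (0 : ℝ) < ∏ m ∈ Finset.range (2 * h + 1), (m.choose (m / 2) : ℝ) :=
    Finset.prod_pos fun m _ => by exact_mod_cast Nat.choose_pos (Nat.div_le_self m 2)
  set P : ℝ := ∏ m ∈ Finset.range (2 * h + 1), (m.choose (m / 2) : ℝ) with hPdef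
  have h1 := prod_mid (2 * h)
  rw [← hPdef] at h1
  have hf : (0 : ℝ) < ((2 * h).factorial : ℝ) := by exact_mod_cast Nat.factorial_pos _
  have h2 : P ^ 2 ≤ 2 ^ (2 * h * (2 * h + 1)) * ((2 / 3) ^ (2 * h) / ((2 * h).factorial : ℝ)) := by
    rw [← mul_div_assoc, le_div_iff₀ hf, mul_comm (2 ^ (2 * h * (2 * h + 1)) : ℝ)]
    exact h1
  have hn : (0 : ℝ) < 2 * (h : ℝ) + 1 := by positivity
  have h3 : P ^ ((1 : ℝ) / (2 * (h : ℝ) + 1)) =
      (P ^ 2) ^ ((1 : ℝ) / (2 * (2 * (h : ℝ) + 1))) := by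
    rw [← Real.rpow_natCast P 2, ← Real.rpow_mul hP.le]
    congr 1
    push_cast
    field_simp
  rw [h3]
  calc (P ^ 2) ^ ((1 : ℝ) / (2 * (2 * (h : ℝ) + 1)))
      ≤ (2 ^ (2 * h * (2 * h + 1)) * ((2 / 3) ^ (2 * h) / ((2 * h).factorial : ℝ))) ^
          ((1 : ℝ) / (2 * (2 * (h : ℝ) + 1))) :=
        Real.rpow_le_rpow (by positivity) h2 (by positivity)
    _ = (2 ^ (2 * h * (2 * h + 1)) : ℝ) ^ ((1 : ℝ) / (2 * (2 * (h : ℝ) + 1))) *
        ((2 / 3) ^ (2 * h) / ((2 * h).factorial : ℝ)) ^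
          ((1 : ℝ) / (2 * (2 * (h : ℝ) + 1))) := by
        rw [Real.mul_rpow (by positivity) (by positivity)]
    _ = 2 ^ h * ((2 / 3) ^ (2 * h) / ((2 * h).factorial : ℝ)) ^
        ((1 : ℝ) / (2 * (2 * (h : ℝ) + 1))) := by
        congr 1
        rw [← Real.rpow_natCast 2 (2 * h * (2 * h + 1)), ← Real.rpow_mul (by norm_num),
          ← Real.rpow_natCast 2 h]
        congr 1
        push_cast
        field_simp

end Pool.Agent.W397.EO
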