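import Pool.Agent.W397.EO.Fml

set_option autoImplicit false

namespace Pool.Agent.W397.EO

open Finset

/-- the three bounds, from the four parts -/
theorem main (hO : S_ORD) (hE : S_ENT) (hS : S_SUB) (hC : S_CLS) :
    ∀ (V : Type) [Fintype V] [DecidableEq V] (G : SimpleGraph V) [DecidableRel G.Adj],
      (∀ v : V, Even (G.degree v)) →
      ((eo V G).card : ℝ) ≤
          ∏ v : V, ∏ a ∈ Finset.range (G.degree v / 2 + 1), ∏ b ∈ Finset.range (G.degree v / 2 + 1),
            ((G.degree v - (a + b)).choose (G.degree v / 2 - a) : ℝ) ^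
              (((G.degree v / 2).choose a : ℝ) * ((G.degree v / 2).choose b : ℝ) /
                (((G.degree v : ℝ) + 1) * ((G.degree v).choose (a + b) : ℝ))) ∧
      ∏ v : V, ∏ a ∈ Finset.range (G.degree v / 2 + 1), ∏ b ∈ Finset.range (G.degree v / 2 + 1),
            ((G.degree v - (a + b)).choose (G.degree v / 2 - a) : ℝ) ^
              (((G.degree v / 2).choose a : ℝ) * ((G.degree v / 2).choose b : ℝ) /
                (((G.degree v : ℝ) + 1) * ((G.degree v).choose (a + b) : ℝ))) ≤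
          ∏ v : V, (∏ m ∈ Finset.range (G.degree v + 1), (m.choose (m / 2) : ℝ)) ^
            ((1 : ℝ) / ((G.degree v : ℝ) + 1)) ∧
      ∏ v : V, (∏ m ∈ Finset.range (G.degree v + 1), (m.choose (m / 2) : ℝ)) ^
            ((1 : ℝ) / ((G.degree v : ℝ) + 1)) ≤
          ∏ v : V, ((2 : ℝ) ^ (G.degree v / 2) *
            ((2 / 3) ^ (G.degree v) / ((G.degree v).factorial : ℝ)) ^
              ((1 : ℝ) / (2 * ((G.degree v : ℝ) + 1)))) := by
  classical
  intro V _ _ G _ hev
  have hd : ∀ v, G.degree v = 2 * (G.degree v / 2) := by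
    intro v
    obtain ⟨k, hk⟩ := hev v
    omega
  have hdR : ∀ v, (G.degree v : ℝ) = 2 * ((G.degree v / 2 : ℕ) : ℝ) := by
    intro v
    exact_mod_cast congrArg (Nat.cast : ℕ → ℝ) (hd v)
  have e1 : ∀ v : V, ∏ a ∈ Finset.range (G.degree v / 2 + 1),
      ∏ b ∈ Finset.range (G.degree v / 2 + 1),
            ((G.degree v - (a + b)).choose (G.degree v / 2 - a) : ℝ) ^
              (((G.degree v / 2).choose a : ℝ) * ((G.degree v / 2).choose b : ℝ) /
                (((G.degree v : ℝ) + 1) * ((G.degree v).choose (a + b) : ℝ))) =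
      Real.exp (lb (G.degree v / 2)) := by
    intro v
    rw [exp_lb, ← hdR v, ← hd v]
  have e2 : ∀ v : V, (∏ m ∈ Finset.range (G.degree v + 1), (m.choose (m / 2) : ℝ)) ^
            ((1 : ℝ) / ((G.degree v : ℝ) + 1)) =
      (∏ m ∈ Finset.range (2 * (G.degree v / 2) + 1), (m.choose (m / 2) : ℝ)) ^
        ((1 : ℝ) / (2 * ((G.degree v / 2 : ℕ) : ℝ) + 1)) := by
    intro v
    rw [← hdR v, ← hd v]
  have e3 : ∀ v : V, ((2 : ℝ) ^ (G.degree v / 2) *
            ((2 / 3) ^ (G.degree v) / ((G.degree v).factorial : ℝ)) ^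
              ((1 : ℝ) / (2 * ((G.degree v : ℝ) + 1)))) =
      2 ^ (G.degree v / 2) * ((2 / 3) ^ (2 * (G.degree v / 2)) /
        ((2 * (G.degree v / 2)).factorial : ℝ)) ^
          ((1 : ℝ) / (2 * (2 * ((G.degree v / 2 : ℕ) : ℝ) + 1))) := by
    intro v
    rw [← hdR v, ← hd v]
  rw [Finset.prod_congr rfl fun v _ => e1 v, Finset.prod_congr rfl fun v _ => e2 v,
    Finset.prod_congr rfl fun v _ => e3 v]
  refine ⟨bound hO hE hS hC G (fun v => G.degree v / 2) hd, ?_, ?_⟩
  · exact Finset.prod_le_prod (fun v _ => (Real.exp_pos _).le) fun v _ => exp_lb_le _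
  · refine Finset.prod_le_prod (fun v _ => ?_) fun v _ => third _
    exact Real.rpow_nonneg (Finset.prod_nonneg fun m _ => by positivity) _

end Pool.Agent.W397.EO
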