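import Mathlib

/-!
# Eulerian orientations of simple graphs: an entropy bound (MP_a3e05c_co)
-/

set_option autoImplicit false

namespace Pool.Agent.W397.EO

open Finset

/-- the Eulerian orientations of a graph -/
def eo (V : Type) [Fintype V] [DecidableEq V] (G : SimpleGraph V) [DecidableRel G.Adj] :
    Finset (V → V → Bool) :=
  (Finset.univ : Finset (V → V → Bool)).filter (fun o =>
    (∀ u w : V, o u w = true → G.Adj u w) ∧
    (∀ u w : V, G.Adj u w → (o u w = true ↔ o w u = false)) ∧
    (∀ x : V, (Finset.univ.filter (fun w => o x w = true)).card =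
      (Finset.univ.filter (fun w => o w x = true)).card))

/-- uniform random orders: the set of the elements of `N` before `v` -/
def S_ORD : Prop := ∀ (V : Type) [Fintype V] [DecidableEq V] (v : V) (N S : Finset V),
  v ∉ N → S ⊆ N →
  ((Finset.univ.filter (fun σ : V ≃ Fin (Fintype.card V) =>
      N.filter (fun u => σ u < σ v) = S)).card : ℝ) *
    (((N.card : ℝ) + 1) * (N.card.choose S.card : ℝ)) = ((Fintype.card V).factorial : ℝ)

/-- chain rule for the entropy and the uniform bound -/
def S_ENT : Prop := ∀ (X Y : Type) [DecidableEq X] [DecidableEq Y] (A : Finset X) (n : ℕ)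
  (r : ℕ → X → Y) (M : ℕ → X → ℝ),
  (∀ x ∈ A, ∀ x' ∈ A, r 0 x = r 0 x') →
  (∀ x ∈ A, ∀ x' ∈ A, r n x = r n x' → x = x') →
  (∀ i < n, ∀ x ∈ A, ∀ x' ∈ A, r (i + 1) x = r (i + 1) x' → r i x = r i x') →
  (∀ i < n, ∀ x ∈ A, ∀ x' ∈ A, r i x = r i x' → M i x = M i x') →
  (∀ i < n, ∀ x ∈ A,
    (((A.filter (fun x' => r i x' = r i x)).image (r (i + 1))).card : ℝ) ≤ M i x) →
  (A.card : ℝ) * Real.log A.card ≤ ∑ i ∈ Finset.range n, ∑ x ∈ A, Real.log (M i x)

/-- sum over the subsets of a union of two disjoint sets -/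
def S_SUB : Prop := ∀ (V : Type) [DecidableEq V] (P Q : Finset V) (f : ℕ → ℕ → ℝ), Disjoint P Q →
  ∑ S ∈ (P ∪ Q).powerset, f (S ∩ P).card (S ∩ Q).card =
    ∑ a ∈ Finset.range (P.card + 1), ∑ b ∈ Finset.range (Q.card + 1),
      (P.card.choose a : ℝ) * (Q.card.choose b : ℝ) * f a b

/-- what is known after the vertices with number `< i` have been processed -/
def rr {V : Type} [Fintype V] (σ : V ≃ Fin (Fintype.card V)) (i : ℕ) (o : V → V → Bool) :
    V → V → Bool :=
  fun u w => if (σ u : ℕ) < i ∨ (σ w : ℕ) < i then o u w else false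

/-- the class bound: the number of continuations at the vertex number `i` -/
def S_CLS : Prop := ∀ (V : Type) [Fintype V] [DecidableEq V] (G : SimpleGraph V)
  [DecidableRel G.Adj] (σ : V ≃ Fin (Fintype.card V)) (v : V) (h : ℕ), G.degree v = 2 * h →
  ∀ o ∈ eo V G,
  ((((eo V G).filter (fun o' => rr σ (σ v : ℕ) o' = rr σ (σ v : ℕ) o)).image
      (rr σ ((σ v : ℕ) + 1))).card : ℝ) ≤
    ((2 * h - ((Finset.univ.filter (fun w => o v w = true ∧ σ w < σ v)).card +
        (Finset.univ.filter (fun w => o w v = true ∧ σ w < σ v)).card)).choose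
      (h - (Finset.univ.filter (fun w => o v w = true ∧ σ w < σ v)).card) : ℝ)

end Pool.Agent.W397.EO
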